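import Pool.Agent.X189.GE.Tree

set_option autoImplicit false
set_option linter.unusedSectionVars false

/-!
Dyadic subcubes of a cube in `Fin d → ℝ`, and passage to the limit.
-/

namespace Pool.Agent.X189.GE

open MeasureTheory Set Filter Topology
open scoped ENNReal

/-- A cube: lower corner and positive side length. -/
abbrev Nd (d : ℕ) : Type := (Fin d → ℝ) × {h : ℝ // 0 < h}

variable {d : ℕ}

/-- The half-open cube. -/
def box (t : Nd d) : Set (Fin d → ℝ) := Set.pi Set.univ fun i => Set.Ico (t.1 i) (t.1 i + t.2)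

/-- The closed cube. -/
def cube (a : Fin d → ℝ) (h : ℝ) : Set (Fin d → ℝ) := Set.Icc a (fun i => a i + h)

/-- The children of a dyadic cube. -/
noncomputable def chi (t : Nd d) (σ : Fin d → Bool) : Nd d :=
  (fun i => t.1 i + (if σ i then (t.2 : ℝ) / 2 else 0), ⟨(t.2 : ℝ) / 2, half_pos t.2.2⟩)

/-- The child containing `x`. -/
noncomputable def sig (t : Nd d) (x : Fin d → ℝ) : Fin d → Bool :=
  fun i => decide (t.1 i + (t.2 : ℝ) / 2 ≤ x i)

/-- The cube of generation `n` containing `x`. -/
noncomputable def locate : ℕ → Nd d → (Fin d → ℝ) → Nd d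
  | 0, t, _ => t
  | n + 1, t, x => locate n (chi t (sig t x)) x

theorem mem_box {t : Nd d} {x : Fin d → ℝ} :
    x ∈ box t ↔ ∀ i, t.1 i ≤ x i ∧ x i < t.1 i + t.2 := by
  simp [box]

theorem mem_chi {t : Nd d} {x : Fin d → ℝ} (hx : x ∈ box t) : x ∈ box (chi t (sig t x)) := by
  rw [mem_box] at hx ⊢
  intro i
  obtain ⟨h1, h2⟩ := hx i
  have h3 := t.2.2
  by_cases h : t.1 i + (t.2 : ℝ) / 2 ≤ x i
  · simp only [chi, sig, h, decide_true, if_true]
    exact ⟨trivial, by linarith⟩
  · simp only [chi, sig, h, decide_false]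
    push Not at h
    simp only [Bool.false_eq_true, if_false, add_zero]
    exact ⟨h1, h⟩

theorem sig_eq {t : Nd d} {σ : Fin d → Bool} {x : Fin d → ℝ} (hx : x ∈ box (chi t σ)) :
    sig t x = σ := by
  rw [mem_box] at hx
  funext i
  obtain ⟨h1, h2⟩ := hx i
  have h3 := t.2.2
  cases hs : σ i
  · simp only [chi, hs, Bool.false_eq_true, if_false, add_zero] at h1 h2
    simp only [sig, decide_eq_false_iff_not, not_le]
    exact h2
  · simp only [chi, hs, if_true] at h1 h2
    simp only [sig, decide_eq_true_eq]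
    exact h1

theorem chi_subset {t : Nd d} (σ : Fin d → Bool) : box (chi t σ) ⊆ box t := by
  intro x hx
  rw [mem_box] at hx ⊢
  intro i
  obtain ⟨h1, h2⟩ := hx i
  have h3 := t.2.2
  cases hs : σ i
  · simp only [chi, hs, Bool.false_eq_true, if_false, add_zero] at h1 h2
    exact ⟨h1, by linarith⟩
  · simp only [chi, hs, if_true] at h1 h2
    exact ⟨by linarith, by linarith⟩

theorem box_eq (t : Nd d) : box t = ⋃ σ, box (chi t σ) := by
  apply Set.Subset.antisymm
  · intro x hx
    exact Set.mem_iUnion.2 ⟨_, mem_chi hx⟩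
  · exact Set.iUnion_subset fun σ => chi_subset σ

theorem box_disj (t : Nd d) : Pairwise (Function.onFun Disjoint fun σ => box (chi t σ)) := by
  intro σ τ hne
  rw [Function.onFun, Set.disjoint_left]
  intro x h1 h2
  exact hne ((sig_eq h1).symm.trans (sig_eq h2))

theorem meas_box (t : Nd d) : MeasurableSet (box t) :=
  MeasurableSet.pi Set.countable_univ fun _ _ => measurableSet_Ico

theorem vol_box (t : Nd d) : volume (box t) = ENNReal.ofReal ((t.2 : ℝ) ^ d) := by
  rw [box, Real.volume_pi_Ico]
  simp only [add_sub_cancel_left, Finset.prod_const, Finset.card_univ, Fintype.card_fin]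
  rw [ENNReal.ofReal_pow t.2.2.le]

theorem volReal_box (t : Nd d) : volume.real (box t) = (t.2 : ℝ) ^ d := by
  rw [Measure.real, vol_box, ENNReal.toReal_ofReal (pow_nonneg t.2.2.le _)]

theorem box_ae (t : Nd d) : box t =ᵐ[volume] cube t.1 t.2 := by
  have := Measure.univ_pi_Ico_ae_eq_Icc (μ := fun _ : Fin d => (volume : Measure ℝ))
    (f := t.1) (g := fun i => t.1 i + t.2)
  exact this

theorem box_subset_cube (t : Nd d) : box t ⊆ cube t.1 t.2 := by
  intro x hx
  rw [mem_box] at hx
  exact ⟨fun i => (hx i).1, fun i => (hx i).2.le⟩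

/-- averages -/
noncomputable def av (v : (Fin d → ℝ) → ℝ) (t : Nd d) : ℝ := ⨍ x in box t, v x

theorem card_children : (Fintype.card (Fin d → Bool) : ℝ) = 2 ^ d := by
  simp

theorem integrableOn_box {v : (Fin d → ℝ) → ℝ} (hv : LocallyIntegrable v) (t : Nd d) :
    IntegrableOn v (box t) :=
  (hv.integrableOn_isCompact (k := cube t.1 t.2) isCompact_Icc).mono_set (box_subset_cube t)

theorem mart_av {v : (Fin d → ℝ) → ℝ} (hv : LocallyIntegrable v) : Mart chi (av v) := by
  intro t
  have h3 := t.2.2
  have hsum : ∫ x in box t, v x = ∑ σ, ∫ x in box (chi t σ), v x := by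
    rw [← integral_iUnion_fintype (fun σ => meas_box _) (box_disj t)
      (fun σ => integrableOn_box hv _), ← box_eq]
  rw [av, setAverage_eq, volReal_box, hsum, card_children]
  simp only [av, setAverage_eq, volReal_box, smul_eq_mul]
  have h2 : ∀ σ, ((chi t σ).2 : ℝ) = t.2 / 2 := fun σ => rfl
  simp only [h2]
  rw [← Finset.mul_sum, ← mul_assoc]
  congr 1
  rw [div_pow]
  field_simp

theorem av_pos {v : (Fin d → ℝ) → ℝ} (hv : LocallyIntegrable v) (h0 : ∀ x, 0 < v x) (t : Nd d) :
    0 < av v t := by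
  have h3 := t.2.2
  rw [av, setAverage_eq, volReal_box, smul_eq_mul]
  have : 0 < ∫ x in box t, v x := by
    rw [setIntegral_pos_iff_support_of_nonneg_ae (Eventually.of_forall fun x => (h0 x).le)
      (integrableOn_box hv t)]
    have : Function.support v = Set.univ := by
      ext x
      simp [(h0 x).ne']
    rw [this, Set.univ_inter, vol_box]
    simpa using pow_pos h3 d
  positivity

theorem jensen {w : (Fin d → ℝ) → ℝ} {p : ℝ} (hp : 1 < p) (hw : LocallyIntegrable w)
    (hv : LocallyIntegrable fun x => w x ^ p) (h0 : ∀ x, 0 < w x) (t : Nd d) :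
    av w t ^ p ≤ av (fun x => w x ^ p) t := by
  have h3 := t.2.2
  have h := (convexOn_rpow hp.le).map_set_average_le (μ := volume) (t := box t) (f := w)
    (Real.continuous_rpow_const (by linarith)).continuousOn isClosed_Ici
    (by rw [vol_box]; simpa using pow_pos h3 d) (by rw [vol_box]; exact ENNReal.ofReal_ne_top)
    (Eventually.of_forall fun x => (h0 x).le) (integrableOn_box hw t) (integrableOn_box hv t)
  exact h

/-! ### Level functions -/

theorem locate_mem : ∀ (n : ℕ) (t : Nd d) (x : Fin d → ℝ), x ∈ box t → x ∈ box (locate n t x)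
  | 0, _, _, h => h
  | n + 1, _, x, h => locate_mem n _ x (mem_chi h)

theorem locate_side : ∀ (n : ℕ) (t : Nd d) (x : Fin d → ℝ),
    ((locate n t x).2 : ℝ) = t.2 / 2 ^ n
  | 0, t, x => by simp [locate]
  | n + 1, t, x => by
      rw [locate, locate_side n]
      show (t.2 : ℝ) / 2 / 2 ^ n = _
      rw [pow_succ]
      field_simp

theorem measurable_sig (t : Nd d) : Measurable (sig t) := by
  refine measurable_pi_lambda _ fun i => ?_
  refine measurable_to_bool ?_
  have : (fun a => sig t a i) ⁻¹' {true} = {x : Fin d → ℝ | t.1 i + (t.2 : ℝ) / 2 ≤ x i} := by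
    ext x
    simp [sig]
  rw [this]
  exact measurableSet_le measurable_const (measurable_pi_apply i)

theorem measurable_locate (G : Nd d → ℝ≥0∞) : ∀ (n : ℕ) (t : Nd d),
    Measurable fun x => G (locate n t x)
  | 0, t => (measurable_const : Measurable fun _ : Fin d → ℝ => G t)
  | n + 1, t => by
      have h1 : Measurable (fun q : (Fin d → Bool) × (Fin d → ℝ) => G (locate n (chi t q.1) q.2)) :=
        measurable_from_prod_countable_right fun σ => measurable_locate G n (chi t σ)
      exact h1.comp ((measurable_sig t).prodMk measurable_id)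

theorem avgn_nonneg {G : Nd d → ℝ} (hG : ∀ t, 0 ≤ G t) : ∀ n t, 0 ≤ avgn chi n G t
  | 0, t => hG t
  | n + 1, t => by
      rw [avgn]
      have := Finset.sum_nonneg fun (σ : Fin d → Bool) (_ : σ ∈ Finset.univ) =>
        avgn_nonneg hG n (chi t σ)
      positivity

theorem lint_locate {G : Nd d → ℝ} (hG : ∀ t, 0 ≤ G t) : ∀ (n : ℕ) (t : Nd d),
    ∫⁻ x in box t, ENNReal.ofReal (G (locate n t x)) =
      ENNReal.ofReal ((t.2 : ℝ) ^ d * avgn chi n G t)
  | 0, t => by
      simp only [locate, avgn]
      rw [setLIntegral_const, vol_box, ← ENNReal.ofReal_mul (hG t), mul_comm]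
  | n + 1, t => by
      have h3 := t.2.2
      rw [box_eq, lintegral_iUnion (fun σ => meas_box _) (box_disj t), tsum_fintype]
      have : ∀ σ : Fin d → Bool, ∫⁻ x in box (chi t σ), ENNReal.ofReal (G (locate (n + 1) t x)) =
          ENNReal.ofReal (((t.2 : ℝ) / 2) ^ d * avgn chi n G (chi t σ)) := by
        intro σ
        rw [show ((t.2 : ℝ) / 2) = ((chi t σ).2 : ℝ) from rfl, ← lint_locate hG n (chi t σ)]
        refine setLIntegral_congr_fun (meas_box _) fun x hx => ?_
        simp only [locate, sig_eq hx]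
      simp only [this]
      rw [← ENNReal.ofReal_sum_of_nonneg (fun σ _ => by
        have := avgn_nonneg hG n (chi t σ)
        positivity)]
      congr 1
      rw [avgn, card_children, ← Finset.mul_sum, ← mul_assoc]
      congr 1
      rw [div_pow]
      field_simp

theorem tendsto_locate {v : (Fin d → ℝ) → ℝ} (hv : LocallyIntegrable v) :
    ∀ᵐ x ∂(volume : Measure (Fin d → ℝ)), ∀ t : Nd d, x ∈ box t →
      Tendsto (fun n => av v (locate n t x)) atTop (𝓝 (v x)) := by
  filter_upwards [IsUnifLocDoublingMeasure.ae_tendsto_average (μ := (volume : Measure (Fin d → ℝ)))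
    hv 1] with x hx t hxt
  have h3 := t.2.2
  set c : ℕ → (Fin d → ℝ) := fun n i => (locate n t x).1 i + (t.2 : ℝ) / 2 ^ n / 2 with hc
  set r : ℕ → ℝ := fun n => (t.2 : ℝ) / 2 ^ n / 2 with hr
  have hr0 : ∀ n, 0 < r n := fun n => by positivity
  have hball : ∀ n, Metric.closedBall (c n) (r n) = cube (locate n t x).1 (t.2 / 2 ^ n) := by
    intro n
    rw [closedBall_pi _ (hr0 n).le]
    ext y
    simp only [Real.closedBall_eq_Icc, Set.mem_pi, Set.mem_univ, true_implies, Set.mem_Icc, cube,
      Pi.le_def]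
    constructor
    · intro h
      refine ⟨fun i => ?_, fun i => ?_⟩
      · have := (h i).1
        simp only [hc, hr] at this
        linarith
      · have := (h i).2
        simp only [hc, hr] at this
        linarith
    · intro h i
      have h1 := h.1 i
      have h2 := h.2 i
      simp only [hc, hr]
      constructor <;> linarith
  have hlim : Tendsto r atTop (𝓝[>] 0) := by
    refine tendsto_nhdsWithin_iff.2 ⟨?_, Eventually.of_forall fun n => hr0 n⟩
    have h1 : Tendsto (fun n : ℕ => (t.2 : ℝ) / 2 * (1 / 2) ^ n) atTop (𝓝 ((t.2 : ℝ) / 2 * 0)) :=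
      (tendsto_pow_atTop_nhds_zero_of_lt_one (by norm_num) (by norm_num)).const_mul _
    rw [mul_zero] at h1
    refine h1.congr fun n => ?_
    simp only [hr]
    rw [one_div, inv_pow]
    field_simp
  have h4 := hx c r hlim (Eventually.of_forall fun n => by
    rw [one_mul, hball]
    have h5 := box_subset_cube _ (locate_mem n t x hxt)
    rwa [locate_side] at h5)
  refine h4.congr fun n => ?_
  rw [hball, av]
  have h5 := box_ae (locate n t x)
  rw [locate_side] at h5
  rw [setAverage_congr h5]

/-- **Gehring's lemma with explicit exponent**, local form. -/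
theorem gehring_box {w : (Fin d → ℝ) → ℝ} {p L δ : ℝ} (hp : 1 < p) (hL : 0 ≤ L)
    (hw : LocallyIntegrable w) (hv : LocallyIntegrable fun x => w x ^ p) (h0 : ∀ x, 0 < w x)
    (hRH : ∀ t, av (fun x => w x ^ p) t ≤ L * av w t ^ p) (hδ0 : 0 < δ) (hδ1 : δ ≤ 1)
    (hsmall : 2 * (L * (2 * (p / (p - 1))) ^ p * (2 ^ d * δ)) ≤ 1) (t : Nd d) :
    ∫⁻ x in box t, ENNReal.ofReal ((w x ^ p) ^ (1 + δ)) ≤
      ENNReal.ofReal ((t.2 : ℝ) ^ d * (2 * av (fun x => w x ^ p) t ^ (1 + δ))) := by
  have h3 := t.2.2
  set v : (Fin d → ℝ) → ℝ := fun x => w x ^ p with hvdef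
  have hv0 : ∀ x, 0 < v x := fun x => Real.rpow_pos_of_pos (h0 x) _
  set G : Nd d → ℝ := fun s => av v s ^ (1 + δ) with hG
  have hG0 : ∀ s, 0 ≤ G s := fun s => Real.rpow_nonneg (av_pos hv hv0 s).le _
  have hbound : ∀ n, ∫⁻ x in box t, ENNReal.ofReal (G (locate n t x)) ≤
      ENNReal.ofReal ((t.2 : ℝ) ^ d * (2 * av v t ^ (1 + δ))) := by
    intro n
    rw [lint_locate hG0]
    refine ENNReal.ofReal_le_ofReal (mul_le_mul_of_nonneg_left ?_ (by positivity))
    refine gehring_tree hp hL (mart_av hv) (mart_av hw) (fun s => av_pos hv hv0 s)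
      (fun s => (av_pos hw h0 s).le) (fun s => jensen hp hw hv h0 s) hRH hδ0 hδ1 ?_ n t
    rw [card_children]
    exact hsmall
  calc ∫⁻ x in box t, ENNReal.ofReal (v x ^ (1 + δ))
      = ∫⁻ x in box t, liminf (fun n => ENNReal.ofReal (G (locate n t x))) atTop := by
        refine lintegral_congr_ae ?_
        have h5 := ae_restrict_of_ae (s := box t) (tendsto_locate hv)
        filter_upwards [h5, ae_restrict_mem (meas_box t)] with x hx hxt
        have h6 : Tendsto (fun n => ENNReal.ofReal (G (locate n t x))) atTop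
            (𝓝 (ENNReal.ofReal (v x ^ (1 + δ)))) := by
          refine (ENNReal.continuous_ofReal.tendsto _).comp ?_
          exact (hx t hxt).rpow_const (Or.inl (hv0 x).ne')
        exact h6.liminf_eq.symm
    _ ≤ liminf (fun n => ∫⁻ x in box t, ENNReal.ofReal (G (locate n t x))) atTop :=
        lintegral_liminf_le fun n => measurable_locate (fun s => ENNReal.ofReal (G s)) n t
    _ ≤ ENNReal.ofReal ((t.2 : ℝ) ^ d * (2 * av v t ^ (1 + δ))) := by
        refine liminf_le_of_le (by isBoundedDefault) fun b hb => ?_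
        obtain ⟨n, hn⟩ := hb.exists
        exact hn.trans (hbound n)

end Pool.Agent.X189.GE
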