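import Mathlib

set_option autoImplicit false

/-!
A finite-tree form of Gehring's lemma with an explicit exponent.
-/

namespace Pool.Agent.X189.GE

open Finset

variable {T ι : Type*} [Fintype ι] [Nonempty ι]

/-- Average over the descendants of `t` in generation `n` of `F (value) (running maximum)`. -/
noncomputable def S (child : T → ι → T) (f : T → ℝ) : ℕ → (ℝ → ℝ → ℝ) → T → ℝ → ℝ
  | 0, F, t, m => F (f t) m
  | n + 1, F, t, m => (Fintype.card ι : ℝ)⁻¹ *
      ∑ i, S child f n F (child t i) (max m (f (child t i)))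

variable {child : T → ι → T} {f g : T → ℝ}

theorem card_pos' : (0 : ℝ) < Fintype.card ι := by
  exact_mod_cast Fintype.card_pos

theorem S_mono {F G : ℝ → ℝ → ℝ} (h0 : ∀ t, 0 ≤ f t) (hFG : ∀ x m, 0 ≤ x → x ≤ m → F x m ≤ G x m) :
    ∀ n t m, f t ≤ m → S child f n F t m ≤ S child f n G t m
  | 0, t, m, h => hFG _ _ (h0 t) h
  | n + 1, t, m, h => by
      simp only [S]
      have := card_pos' (ι := ι)
      refine mul_le_mul_of_nonneg_left (Finset.sum_le_sum fun i _ => ?_) (by positivity)
      exact S_mono h0 hFG n _ _ (le_max_right _ _)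

theorem S_lin (F G : ℝ → ℝ → ℝ) (α β : ℝ) :
    ∀ n t m, S child f n (fun x M => α * F x M + β * G x M) t m =
      α * S child f n F t m + β * S child f n G t m
  | 0, t, m => rfl
  | n + 1, t, m => by
      simp only [S]
      simp only [S_lin F G α β n]
      rw [Finset.sum_add_distrib, ← Finset.mul_sum, ← Finset.mul_sum]
      ring

/-- the martingale property -/
def Mart (child : T → ι → T) (f : T → ℝ) : Prop :=
  ∀ t, f t = (Fintype.card ι : ℝ)⁻¹ * ∑ i, f (child t i)

theorem Mart.child_le (hf : Mart child f) (h0 : ∀ t, 0 ≤ f t) (t : T) (i : ι) :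
    f (child t i) ≤ Fintype.card ι * f t := by
  have hc := card_pos' (ι := ι)
  rw [hf t, ← mul_assoc, mul_inv_cancel₀ hc.ne', one_mul]
  exact Finset.single_le_sum (f := fun i => f (child t i)) (fun j _ => h0 _) (Finset.mem_univ i)

/-- elementary inequality behind the two good-lambda estimates -/
theorem key_ineq {b δ m m' : ℝ} (hδ0 : 0 < δ) (hδ1 : δ ≤ 1) (hm : 0 < m) (hmm : m ≤ m')
    (hb : m' ≤ b * m) :
    m' * (m' ^ δ - m ^ δ) ≤ b * δ * (m' ^ (1 + δ) - m ^ (1 + δ)) := by
  have hm' : 0 < m' := lt_of_lt_of_le hm hmm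
  have hb0 : 0 < b := by
    by_contra h
    push Not at h
    nlinarith
  -- concavity
  have h1 : m' ^ δ - m ^ δ ≤ δ * (m' - m) * m ^ (δ - 1) := by
    have h2 : (1 + (m' / m - 1)) ^ δ ≤ 1 + δ * (m' / m - 1) :=
      rpow_one_add_le_one_add_mul_self (by
        have : 0 ≤ m' / m := by positivity
        linarith) hδ0.le hδ1
    have h3 : m' ^ δ = m ^ δ * (1 + (m' / m - 1)) ^ δ := by
      rw [← Real.mul_rpow hm.le (by
        have : 0 ≤ m' / m := by positivity
        linarith)]
      congr 1
      field_simp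
      ring
    have h4 : m ^ (δ - 1) = m ^ δ / m := by
      rw [Real.rpow_sub hm, Real.rpow_one]
    rw [h3, h4]
    have h5 : 0 ≤ m ^ δ := Real.rpow_nonneg hm.le _
    calc m ^ δ * (1 + (m' / m - 1)) ^ δ - m ^ δ ≤ m ^ δ * (1 + δ * (m' / m - 1)) - m ^ δ := by
          have := mul_le_mul_of_nonneg_left h2 h5
          linarith
      _ = δ * (m' - m) * (m ^ δ / m) := by
          field_simp
          ring
  have h6 : (m' - m) * m ^ δ ≤ m' ^ (1 + δ) - m ^ (1 + δ) := by
    rw [Real.rpow_add hm', Real.rpow_add hm, Real.rpow_one, Real.rpow_one]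
    have : m ^ δ ≤ m' ^ δ := Real.rpow_le_rpow hm.le hmm hδ0.le
    nlinarith
  have h7 : m ^ δ = m * m ^ (δ - 1) := by
    rw [← Real.rpow_one_add' hm.le (by linarith [hδ0] : (1 : ℝ) + (δ - 1) ≠ 0)]
    congr 1
    ring
  have h8 : 0 ≤ m ^ (δ - 1) := Real.rpow_nonneg hm.le _
  calc m' * (m' ^ δ - m ^ δ) ≤ m' * (δ * (m' - m) * m ^ (δ - 1)) :=
        mul_le_mul_of_nonneg_left h1 hm'.le
    _ ≤ (b * m) * (δ * (m' - m) * m ^ (δ - 1)) := by
        refine mul_le_mul_of_nonneg_right hb ?_
        have : 0 ≤ m' - m := by linarith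
        positivity
    _ = b * δ * ((m' - m) * m ^ δ) := by rw [h7]; ring
    _ ≤ b * δ * (m' ^ (1 + δ) - m ^ (1 + δ)) := mul_le_mul_of_nonneg_left h6 (by positivity)

theorem claimI {δ : ℝ} (hδ0 : 0 < δ) (hδ1 : δ ≤ 1) (hf : Mart child f) (h0 : ∀ t, 0 ≤ f t) :
    ∀ n t m, 0 < m → f t ≤ m →
      S child f n (fun x M => x * M ^ δ) t m ≤ m ^ δ * f t +
        Fintype.card ι * δ * (S child f n (fun _ M => M ^ (1 + δ)) t m - m ^ (1 + δ))
  | 0, t, m, _, _ => by
      simp only [S]
      have : f t * m ^ δ = m ^ δ * f t := mul_comm _ _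
      linarith
  | n + 1, t, m, hm, htm => by
      have hc := card_pos' (ι := ι)
      simp only [S]
      set b : ℝ := (Fintype.card ι : ℝ) with hbdef
      have key : ∀ i, S child f n (fun x M => x * M ^ δ) (child t i) (max m (f (child t i))) ≤
          m ^ δ * f (child t i) + b * δ * (S child f n (fun _ M => M ^ (1 + δ)) (child t i)
            (max m (f (child t i))) - m ^ (1 + δ)) := by
        intro i
        have h1 := claimI hδ0 hδ1 hf h0 n (child t i) (max m (f (child t i)))
          (lt_max_of_lt_left hm) (le_max_right _ _)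
        refine h1.trans ?_
        rcases le_total (f (child t i)) m with h | h
        · rw [max_eq_left h]
        · rw [max_eq_right h]
          have h2 := key_ineq (b := b) hδ0 hδ1 hm h
            ((hf.child_le h0 t i).trans (mul_le_mul_of_nonneg_left htm hc.le))
          nlinarith
      calc b⁻¹ * ∑ i, S child f n (fun x M => x * M ^ δ) (child t i) (max m (f (child t i)))
          ≤ b⁻¹ * ∑ i, (m ^ δ * f (child t i) + b * δ * (S child f n (fun _ M => M ^ (1 + δ))
            (child t i) (max m (f (child t i))) - m ^ (1 + δ))) :=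
            mul_le_mul_of_nonneg_left (Finset.sum_le_sum fun i _ => key i) (by positivity)
        _ = _ := by
            rw [Finset.sum_add_distrib, ← Finset.mul_sum, ← Finset.mul_sum,
              Finset.sum_sub_distrib, Finset.sum_const, Finset.card_univ, nsmul_eq_mul]
            rw [hf t]
            field_simp
            ring

theorem claimII {δ A : ℝ} (hδ0 : 0 < δ) (hδ1 : δ ≤ 1) (hA : 0 ≤ A) (hf : Mart child f)
    (h0 : ∀ t, 0 ≤ f t) (H : ∀ n t, S child f n (fun _ M => M) t (f t) ≤ A * f t) :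
    ∀ n t m, 0 < m → f t ≤ m →
      S child f n (fun _ M => M ^ (1 + δ)) t m ≤ m ^ δ * S child f n (fun _ M => M) t m +
        A * (Fintype.card ι * δ) * (S child f n (fun _ M => M ^ (1 + δ)) t m - m ^ (1 + δ))
  | 0, t, m, hm, _ => by
      simp only [S]
      have : m ^ (1 + δ) = m ^ δ * m := by
        rw [add_comm, Real.rpow_add hm, Real.rpow_one]
      rw [this]
      linarith
  | n + 1, t, m, hm, htm => by
      have hc := card_pos' (ι := ι)
      simp only [S]
      set b : ℝ := (Fintype.card ι : ℝ) with hbdef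
      have key : ∀ i, S child f n (fun _ M => M ^ (1 + δ)) (child t i) (max m (f (child t i))) ≤
          m ^ δ * S child f n (fun _ M => M) (child t i) (max m (f (child t i))) +
          A * (b * δ) * (S child f n (fun _ M => M ^ (1 + δ)) (child t i)
            (max m (f (child t i))) - m ^ (1 + δ)) := by
        intro i
        have h1 := claimII hδ0 hδ1 hA hf h0 H n (child t i) (max m (f (child t i)))
          (lt_max_of_lt_left hm) (le_max_right _ _)
        refine h1.trans ?_
        rcases le_total (f (child t i)) m with h | h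
        · rw [max_eq_left h]
        · rw [max_eq_right h]
          have h2 := key_ineq (b := b) hδ0 hδ1 hm h
            ((hf.child_le h0 t i).trans (mul_le_mul_of_nonneg_left htm hc.le))
          have h3 := H n (child t i)
          have h4 : m ^ δ ≤ f (child t i) ^ δ := Real.rpow_le_rpow hm.le h hδ0.le
          have h5 := mul_le_mul_of_nonneg_left h3 (sub_nonneg.2 h4)
          have h6 := mul_le_mul_of_nonneg_left h2 hA
          nlinarith
      calc b⁻¹ * ∑ i, S child f n (fun _ M => M ^ (1 + δ)) (child t i) (max m (f (child t i)))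
          ≤ b⁻¹ * ∑ i, (m ^ δ * S child f n (fun _ M => M) (child t i) (max m (f (child t i))) +
            A * (b * δ) * (S child f n (fun _ M => M ^ (1 + δ))
            (child t i) (max m (f (child t i))) - m ^ (1 + δ))) :=
            mul_le_mul_of_nonneg_left (Finset.sum_le_sum fun i _ => key i) (by positivity)
        _ = _ := by
            rw [Finset.sum_add_distrib, ← Finset.mul_sum, ← Finset.mul_sum,
              Finset.sum_sub_distrib, Finset.sum_const, Finset.card_univ, nsmul_eq_mul]
            field_simp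
            ring

/-- Generation-`n` average. -/
noncomputable def avgn (child : T → ι → T) : ℕ → (T → ℝ) → T → ℝ
  | 0, G, t => G t
  | n + 1, G, t => (Fintype.card ι : ℝ)⁻¹ * ∑ i, avgn child n G (child t i)

theorem avgn_eq_S (F : ℝ → ℝ) : ∀ n t m, avgn child n (fun t => F (f t)) t =
    S child f n (fun x _ => F x) t m
  | 0, t, m => rfl
  | n + 1, t, m => by
      simp only [avgn, S]
      congr 1
      exact Finset.sum_congr rfl fun i _ => avgn_eq_S F n _ _

theorem reverse_holder {δ A : ℝ} (hδ0 : 0 < δ) (hδ1 : δ ≤ 1) (hA : 0 ≤ A) (hf : Mart child f)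
    (h0 : ∀ t, 0 < f t) (H : ∀ n t, S child f n (fun _ M => M) t (f t) ≤ A * f t)
    (hsmall : 2 * (A * (Fintype.card ι * δ)) ≤ 1) (n : ℕ) (t : T) :
    avgn child n (fun t => f t ^ (1 + δ)) t ≤ 2 * f t ^ (1 + δ) := by
  have h0' : ∀ t, 0 ≤ f t := fun t => (h0 t).le
  have hc := card_pos' (ι := ι)
  have e1 := claimI hδ0 hδ1 hf h0' n t (f t) (h0 t) le_rfl
  have e2 := claimII hδ0 hδ1 hA hf h0' H n t (f t) (h0 t) le_rfl
  have e3 := H n t
  set X := S child f n (fun _ M => M ^ (1 + δ)) t (f t) with hX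
  have hp : f t ^ (1 + δ) = f t ^ δ * f t := by
    rw [add_comm, Real.rpow_add (h0 t), Real.rpow_one]
  have hfd : 0 ≤ f t ^ δ := Real.rpow_nonneg (h0' t) _
  have hfp : 0 ≤ f t ^ (1 + δ) := Real.rpow_nonneg (h0' t) _
  have hX0 : 0 ≤ X := by
    have := S_mono (child := child) (F := fun _ _ => 0) (G := fun _ M => M ^ (1 + δ)) h0'
      (fun x m hx hxm => Real.rpow_nonneg (hx.trans hxm) _) n t (f t) le_rfl
    refine le_trans ?_ this
    have : ∀ n t m, S child f n (fun _ _ => (0 : ℝ)) t m = 0 := by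
      intro n
      induction n with
      | zero => intro t m; rfl
      | succ n ih => intro t m; simp only [S, ih]; simp
    rw [this]
  have e4 : X ≤ 2 * A * f t ^ (1 + δ) := by
    have h1 : f t ^ δ * S child f n (fun _ M => M) t (f t) ≤ A * f t ^ (1 + δ) := by
      rw [hp]
      have := mul_le_mul_of_nonneg_left e3 hfd
      linarith
    have h2 : A * (Fintype.card ι * δ) * (X - f t ^ (1 + δ)) ≤ 1 / 2 * X := by
      have h3 : 0 ≤ A * (Fintype.card ι * δ) := by positivity
      nlinarith
    linarith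
  have e5 : S child f n (fun x M => x * M ^ δ) t (f t) ≤ 2 * f t ^ (1 + δ) := by
    refine e1.trans ?_
    have h1 : (Fintype.card ι : ℝ) * δ * (X - f t ^ (1 + δ)) ≤
        Fintype.card ι * δ * (2 * A * f t ^ (1 + δ)) := by
      refine mul_le_mul_of_nonneg_left ?_ (by positivity)
      linarith
    have h2 : (Fintype.card ι : ℝ) * δ * (2 * A * f t ^ (1 + δ)) ≤ f t ^ (1 + δ) := by
      have := mul_le_mul_of_nonneg_right hsmall hfp
      nlinarith
    rw [← hp]
    linarith
  rw [avgn_eq_S (f := f) (fun x => x ^ (1 + δ)) n t (f t)]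
  refine le_trans (S_mono h0' ?_ n t (f t) le_rfl) e5
  intro x m hx hxm
  rcases hx.eq_or_lt with h | h
  · subst h
    rw [Real.zero_rpow (by linarith)]
    simp
  · rw [Real.rpow_add h, Real.rpow_one]
    exact mul_le_mul_of_nonneg_left (Real.rpow_le_rpow hx hxm hδ0.le) hx

/-! Doob's inequality -/

theorem young_max {p m m' : ℝ} (hp : 1 < p) (hm : 0 ≤ m) (hmm : m ≤ m') :
    m' ^ p - m ^ p ≤ p / (p - 1) * (m' * (m' ^ (p - 1) - m ^ (p - 1))) := by
  have hp1 : 0 < p - 1 := by linarith
  have hp0 : 0 < p := by linarith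
  have hm' : 0 ≤ m' := hm.trans hmm
  have hconj : p.HolderConjugate (p / (p - 1)) := Real.HolderConjugate.conjExponent hp
  have h1 := Real.young_inequality_of_nonneg hm' (Real.rpow_nonneg hm (p - 1)) hconj
  have h2 : (m ^ (p - 1)) ^ (p / (p - 1)) = m ^ p := by
    rw [← Real.rpow_mul hm]
    congr 1
    field_simp
  rw [h2] at h1
  have h3 : m' * m' ^ (p - 1) = m' ^ p := by
    rw [← Real.rpow_one_add' hm' (by linarith)]
    congr 1
    ring
  rw [mul_sub, h3]
  have h4 : p / (p - 1) * (m' * m ^ (p - 1)) ≤ p / (p - 1) * (m' ^ p / p + m ^ p / (p / (p - 1))) :=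
    mul_le_mul_of_nonneg_left h1 (by positivity)
  have h5 : p / (p - 1) * (m' ^ p / p + m ^ p / (p / (p - 1))) = m' ^ p / (p - 1) + m ^ p := by
    field_simp
  have h6 : p / (p - 1) * m' ^ p = m' ^ p + m' ^ p / (p - 1) := by
    field_simp
    ring
  rw [mul_sub, h6]
  rw [h5] at h4
  linarith

theorem claimIII {p : ℝ} (hp : 1 < p) (hg : Mart child g) (h0 : ∀ t, 0 ≤ g t) :
    ∀ n t m, 0 ≤ m → g t ≤ m →
      S child g n (fun _ M => M ^ p) t m ≤ m ^ p + p / (p - 1) *
        (S child g n (fun x M => x * M ^ (p - 1)) t m - m ^ (p - 1) * g t)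
  | 0, t, m, _, _ => by
      simp only [S]
      have : g t * m ^ (p - 1) - m ^ (p - 1) * g t = 0 := by ring
      rw [this]
      simp
  | n + 1, t, m, hm, htm => by
      have hc := card_pos' (ι := ι)
      have hp1 : 0 < p - 1 := by linarith
      have hp0 : 0 < p := by linarith
      simp only [S]
      set b : ℝ := (Fintype.card ι : ℝ) with hbdef
      set q : ℝ := p / (p - 1) with hq
      have key : ∀ i, S child g n (fun _ M => M ^ p) (child t i) (max m (g (child t i))) ≤
          m ^ p + q * (S child g n (fun x M => x * M ^ (p - 1)) (child t i)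
            (max m (g (child t i))) - m ^ (p - 1) * g (child t i)) := by
        intro i
        have h1 := claimIII hp hg h0 n (child t i) (max m (g (child t i)))
          (le_max_of_le_left hm) (le_max_right _ _)
        refine h1.trans ?_
        rcases le_total (g (child t i)) m with h | h
        · rw [max_eq_left h]
        · rw [max_eq_right h]
          have h2 := young_max hp hm h
          rw [← hq] at h2 ⊢
          nlinarith
      calc b⁻¹ * ∑ i, S child g n (fun _ M => M ^ p) (child t i) (max m (g (child t i)))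
          ≤ b⁻¹ * ∑ i, (m ^ p + q * (S child g n (fun x M => x * M ^ (p - 1)) (child t i)
            (max m (g (child t i))) - m ^ (p - 1) * g (child t i))) :=
            mul_le_mul_of_nonneg_left (Finset.sum_le_sum fun i _ => key i) (by positivity)
        _ = _ := by
            rw [Finset.sum_add_distrib, ← Finset.mul_sum,
              Finset.sum_sub_distrib, Finset.sum_const, Finset.card_univ, nsmul_eq_mul,
              ← Finset.mul_sum]
            rw [hg t]
            field_simp
            ring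

theorem young_half {p x y : ℝ} (hp : 1 < p) (hx : 0 ≤ x) (hy : 0 ≤ y) :
    p / (p - 1) * (x * y ^ (p - 1)) ≤ (2 * (p / (p - 1))) ^ p / 2 * x ^ p + 1 / 2 * y ^ p := by
  have hp1 : 0 < p - 1 := by linarith
  have hp0 : 0 < p := by linarith
  set q : ℝ := p / (p - 1) with hq
  have hq0 : 0 < q := by positivity
  rcases le_total y (2 * q * x) with h | h
  · have h1 : y ^ (p - 1) ≤ (2 * q * x) ^ (p - 1) := Real.rpow_le_rpow hy h hp1.le
    have h2 : (2 * q * x) * (2 * q * x) ^ (p - 1) = (2 * q * x) ^ p := by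
      rw [← Real.rpow_one_add' (by positivity) (by linarith)]
      congr 1
      ring
    have h3 : (2 * q * x) ^ p = (2 * q) ^ p * x ^ p := Real.mul_rpow (by positivity) hx
    have h4 : q * (x * y ^ (p - 1)) ≤ (2 * q * x) * (2 * q * x) ^ (p - 1) / 2 := by
      have := mul_le_mul_of_nonneg_left h1 (mul_nonneg hq0.le hx)
      nlinarith
    rw [h2, h3] at h4
    have h5 : 0 ≤ y ^ p := Real.rpow_nonneg hy _
    linarith
  · have h1 : q * x ≤ y / 2 := by linarith
    have h2 : y * y ^ (p - 1) = y ^ p := by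
      rw [← Real.rpow_one_add' hy (by linarith)]
      congr 1
      ring
    have h3 : 0 ≤ y ^ (p - 1) := Real.rpow_nonneg hy _
    have h4 : q * (x * y ^ (p - 1)) ≤ 1 / 2 * y ^ p := by
      rw [← h2]
      have := mul_le_mul_of_nonneg_right h1 h3
      linarith
    have h5 : 0 ≤ (2 * q) ^ p / 2 * x ^ p := by positivity
    linarith

theorem doob {p : ℝ} (hp : 1 < p) (hg : Mart child g) (h0 : ∀ t, 0 ≤ g t) (n : ℕ) (t : T) :
    S child g n (fun _ M => M ^ p) t (g t) ≤
      (2 * (p / (p - 1))) ^ p * S child g n (fun x _ => x ^ p) t (g t) := by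
  have hp1 : 0 < p - 1 := by linarith
  have hp0 : 0 < p := by linarith
  have h1 := claimIII hp hg h0 n t (g t) (h0 t) le_rfl
  set q : ℝ := p / (p - 1) with hq
  have hq1 : 1 ≤ q := by
    rw [hq, le_div_iff₀ hp1]; linarith
  have h2 : g t ^ (p - 1) * g t = g t ^ p := by
    rw [mul_comm, ← Real.rpow_one_add' (h0 t) (by linarith)]
    congr 1
    ring
  have h3 : 0 ≤ g t ^ p := Real.rpow_nonneg (h0 t) _
  have h4 : S child g n (fun x M => q * (x * M ^ (p - 1)) + 0 * (0 : ℝ)) t (g t) ≤
      S child g n (fun x M => (2 * q) ^ p / 2 * x ^ p + 1 / 2 * M ^ p) t (g t) := by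
    refine S_mono h0 ?_ n t (g t) le_rfl
    intro x m hx hxm
    have := young_half hp hx (hx.trans hxm)
    rw [← hq] at this
    linarith
  rw [S_lin (fun x M => x * M ^ (p - 1)) (fun _ _ => (0 : ℝ)) q 0,
    S_lin (fun x _ => x ^ p) (fun _ M => M ^ p)] at h4
  rw [h2] at h1
  nlinarith

theorem S_pow_le {p : ℝ} (hf : Mart child f) (hgf : ∀ t, g t ^ p ≤ f t) :
    ∀ n t m, S child g n (fun x _ => x ^ p) t m ≤ f t
  | 0, t, m => hgf t
  | n + 1, t, m => by
      have hc := card_pos' (ι := ι)
      simp only [S]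
      rw [hf t]
      exact mul_le_mul_of_nonneg_left (Finset.sum_le_sum fun i _ => S_pow_le hf hgf n _ _)
        (by positivity)

theorem S_comp {p L : ℝ} (hp : 1 < p) (hL : 0 ≤ L) (h0 : ∀ t, 0 ≤ g t)
    (hfg : ∀ t, f t ≤ L * g t ^ p) :
    ∀ n t m m', 0 ≤ m' → m ≤ L * m' ^ p →
      S child f n (fun _ M => M) t m ≤ L * S child g n (fun _ M => M ^ p) t m'
  | 0, t, m, m', _, h => h
  | n + 1, t, m, m', hm', h => by
      have hc := card_pos' (ι := ι)
      simp only [S]
      rw [mul_left_comm, Finset.mul_sum (a := L)]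
      refine mul_le_mul_of_nonneg_left (Finset.sum_le_sum fun i _ => ?_) (by positivity)
      refine S_comp hp hL h0 hfg n _ _ _ (le_max_of_le_left hm') ?_
      refine max_le (h.trans ?_) ((hfg _).trans ?_)
      · exact mul_le_mul_of_nonneg_left (Real.rpow_le_rpow hm' (le_max_left _ _) (by linarith)) hL
      · exact mul_le_mul_of_nonneg_left (Real.rpow_le_rpow (h0 _) (le_max_right _ _)
          (by linarith)) hL

/-- **Gehring's lemma on a tree, explicit exponent.** -/
theorem gehring_tree {p L δ : ℝ} (hp : 1 < p) (hL : 0 ≤ L) (hf : Mart child f) (hg : Mart child g)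
    (f0 : ∀ t, 0 < f t) (g0 : ∀ t, 0 ≤ g t) (hgf : ∀ t, g t ^ p ≤ f t)
    (hfg : ∀ t, f t ≤ L * g t ^ p) (hδ0 : 0 < δ) (hδ1 : δ ≤ 1)
    (hsmall : 2 * (L * (2 * (p / (p - 1))) ^ p * (Fintype.card ι * δ)) ≤ 1) (n : ℕ) (t : T) :
    avgn child n (fun t => f t ^ (1 + δ)) t ≤ 2 * f t ^ (1 + δ) := by
  have hp1 : 0 < p - 1 := by linarith
  refine reverse_holder (A := L * (2 * (p / (p - 1))) ^ p) hδ0 hδ1 (by positivity) hf f0 ?_
    hsmall n t
  intro n t
  have h1 := S_comp (child := child) hp hL g0 hfg n t (f t) (g t) (g0 t) (hfg t)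
  have h2 := doob hp hg g0 n t
  have h3 := S_pow_le (child := child) hf hgf n t (g t)
  have h4 : 0 ≤ (2 * (p / (p - 1))) ^ p := by positivity
  calc S child f n (fun _ M => M) t (f t) ≤ L * S child g n (fun _ M => M ^ p) t (g t) := h1
    _ ≤ L * ((2 * (p / (p - 1))) ^ p * S child g n (fun x _ => x ^ p) t (g t)) :=
        mul_le_mul_of_nonneg_left h2 hL
    _ ≤ L * ((2 * (p / (p - 1))) ^ p * f t) :=
        mul_le_mul_of_nonneg_left (mul_le_mul_of_nonneg_left h3 h4) hL
    _ = _ := by ring

end Pool.Agent.X189.GE
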